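import Mathlib
import Pool.Agent.Q306.TP.PrimeDefs
import Pool.Agent.Y137.GN.Defs
import Pool.Agent.Y137.MV.Defs

/-!
# Schemes over finite fields generated by abelian varieties with large simple factors: definitions
-/

set_option autoImplicit false

namespace Pool.Agent.Q68.GB

open NumberField Module Pool.Agent.TH117.BL Pool.Agent.W495.TA Pool.Agent.W495.FM
  Pool.Agent.W547.KB Pool.Agent.Y137.GN Pool.Agent.Y137.MV Pool.Agent.Q306.TP

variable {p : ℕ} [Fact p.Prime] {ν : PadicAlgCl p ≃+* ℂ}

/-- The degree of the CM field of the factor `i`: twice the dimension of the factor. -/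
noncomputable def deg (Z : RedAV p ν) (i : Z.X.I) : ℕ := finrank ℚ (Z.X.factor i).E

/-- The Galois closure of the CM field of the factor `i`, in the field of complex numbers. -/
noncomputable def closure (Z : RedAV p ν) (i : Z.X.I) : IntermediateField ℚ ℂ :=
  IntermediateField.normalClosure ℚ (Z.X.factor i).E ℂ

/-- A condition on the factors of `Z` of dimension at least three. There is no condition on the
factors of dimension one and two. -/
structure HasLargeFactors (Z : RedAV p ν) : Prop where
  /-- They are not supersingular. -/
  nonsupersingular : ∀ i, 4 < deg Z i → ¬ IsSupersingular Z i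
  /-- The odd functions on the complex embeddings of the CM field are irreducible; or the dimension
  is an odd prime number, the CM field has no imaginary quadratic subfield in common with the CM
  field of another factor, and it contains no imaginary quadratic field at all if the dimension is
  at least seven. -/
  irreducible : ∀ i, 4 < deg Z i → OddIrreducible (Z.X.factor i).E ∨
    ((∃ g : ℕ, g.Prime ∧ deg Z i = 2 * g) ∧
      ∀ k, k ≠ i ∨ 10 < deg Z i → ¬ CommonImaginary (Z.X.factor i).E (Z.X.factor k).E)
  /-- The Galois closures of their CM fields are pairwise different. -/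
  closures : ∀ i k, 4 < deg Z i → 4 < deg Z k → closure Z i = closure Z k → i = k

/-- The abelian variety `Y` over a finite field has dimension at most five, or it is isogenous, over
an algebraic closure, to a product of a supersingular abelian variety and of powers of the factors
of an abelian variety `Z` as above. -/
def IsLargeAV (Y : RedAV p ν) : Prop :=
  finrank ℚ Y.X.H1 ≤ 10 ∨ ∃ Z : RedAV p ν, HasLargeFactors Z ∧ IsPowersTimesSupersingular Z Y

/-- The groups of motivic and of `ℓ`-adic homology of `X` are those of an abelian variety `Y` as
above. -/
def IsLargeAbelian {Ω V : Type} [Field Ω] [CharZero Ω] (p : ℕ) [Fact p.Prime]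
    (ν : PadicAlgCl p ≃+* ℂ) (T : Homology Ω V) (X : V) : Prop :=
  ∃ (Y : RedAV p ν) (C : Cycles Ω Y) (M : Motivic C) (g : ℕ), IsLargeAV Y ∧ IsChowS C ∧
    IsMotivic M ∧ IsAbelian T X M g

end Pool.Agent.Q68.GB
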