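import Mathlib
import Pool.Agent.Q68.GB.Defs
import Pool.Agent.Q306.TP.Large
import Pool.Agent.Y137.GN.Main

/-!
# Schemes over finite fields generated by abelian varieties with large simple factors
-/

set_option autoImplicit false

namespace Pool.Agent.Q68.GB

open NumberField Module Pool.Agent.TH117.BL Pool.Agent.W495.TA Pool.Agent.W495.FM
  Pool.Agent.W547.KB Pool.Agent.Y137.SF Pool.Agent.Y137.MV Pool.Agent.Y137.GN Pool.Agent.Y1.CT
  Pool.Agent.Q306.TP

variable {p : ℕ} [Fact p.Prime] {ν : PadicAlgCl p ≃+* ℂ}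

theorem elementary_large {Z : RedAV p ν} (h : HasLargeFactors Z) : HasElementaryRelationsS Z := by
  refine elementary_of_large Z {i | 4 < finrank ℚ (Z.X.factor i).E} (fun i hi => ?_)
    (fun i hi k hk hc => h.closures i k hi hk hc) (fun i hi k hk => ?_)
    (generated_of_good Z _ (Or.inl ⟨fun i hi => ?_, ?_⟩))
  · refine ⟨h.nonsupersingular i hi, ?_⟩
    rcases h.irreducible i hi with h1 | ⟨⟨g, hg, hd⟩, h3⟩
    · exact Or.inl h1
    · refine Or.inr ⟨⟨g, hg, ?_, hd⟩, fun h10 => ?_, fun k hk => h3 k (Or.inl hk)⟩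
      · rintro rfl
        have h4 : 4 < finrank ℚ (Z.X.factor i).E := hi
        have h5 : finrank ℚ (Z.X.factor i).E = 2 * 2 := hd
        omega
      · intro x n hn hx
        exact absurd ⟨x, x, n, hn, hx, hx⟩ (h3 i (Or.inr h10))
  · exact lt_of_le_of_lt (not_lt.1 hk) hi
  · have h1 : finrank ℚ (Z.X.factor i).E ≤ 4 := not_lt.1 hi
    omega
  · intro i hi k hk h6
    have h1 : finrank ℚ (Z.X.factor i).E ≤ 4 := not_lt.1 hi
    omega

variable {Ω : Type} [Field Ω] [IsAlgClosed Ω] [CharZero Ω]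

/-- All Tate classes on `Y` over finite extensions belong to the system `AlgS`. -/
theorem algS_large {Y : RedAV p ν} (hY : IsLargeAV Y) (s m : ℕ) (hs : 0 < s)
    (f : (TM Ω Y) [⋀^Fin (2 * m)]→ₗ[Ω] Ω) (hf : IsTateClass Ω Y s m f) :
    AlgS Ω {4, 6} Y (Fin (2 * m)) f := by
  rcases hY with hY | ⟨Z, hZ, hY⟩
  · exact fiveS Ω Y hY s m hs f hf
  · exact elementaryS Z (elementary_large hZ) Ω Y hY s m hs f hf

theorem tateHolds_large {Y : RedAV p ν} {C : Cycles Ω Y} (hY : IsLargeAV Y) (hC : IsChowS C) :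
    TateHolds C :=
  fun j f hf => hC.algebraicS j f (algS_large hY 1 j one_pos f hf) hf

variable {V : Type} {T : Homology Ω V}

theorem tb_large (hT : IsHomology T) {X : V}
    (hX : Pool.Agent.W495.FM.Generated T (IsLargeAbelian p ν T) X) : TB T X := by
  refine tb_generated hT (fun X hX => ?_) hX
  obtain ⟨Y, C, M, g, hY, hC, hM, hX⟩ := hX
  exact tb_abelian hT hC.isChow (tateHolds_large hY hC) hM hX

theorem isoAbove_large (hT : IsHomology T) (hW : HasWeights T) :
    IsoAbove T (IsLargeAbelian p ν T) := fun _ _ _ _ h hX hZ i hi =>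
  iso_opened hT hW h (onto_of_dim hT hZ hi) ((tb_large hT hX).iso hT i)

theorem onto_spread_large (hT : IsHomology T) (hW : HasWeights T) {X : V}
    (hX : Spread T (fun X => Pool.Agent.W495.FM.Generated T (IsLargeAbelian p ν T) X ∨
      ∀ i, IsOnto T X i) X) (i : ℤ) :
    IsOnto T X i := by
  refine onto_spread hT hW (fun X h i => ?_) hX i
  rcases h with h | h
  · exact ((tb_large hT h).iso hT i).1
  · exact h i

end Pool.Agent.Q68.GB
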